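import Pool.Agent.H4.VR.Fo2
import Pool.Agent.H4.VR.Loc

set_option autoImplicit false

/-!
# Vaught's conjecture for the first-order theories of short commutative local rings

Vaught's conjecture, perfect-set form, for the complete first-order theories (in Mathlib's language
of rings) of commutative local rings of characteristic `3`, with residue field of three elements
and maximal ideal of cube zero, is equivalent to the full conjecture (all first-order theories in
all countable languages).

The ring of a graph: the maximal ideal modulo its annihilator has a basis of the vertices `v` and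
two edges `e₊, e₋` for every pair `{v, w}` of adjacent vertices; the relations are `v² = 0`,
`e₊² = v w`, `e₋² = -v w`, and there are no further relations besides those which make the product
of three elements of the maximal ideal vanish. The countable models of the theory of these rings
are classified by a graph and two dimensions (at most countable).
-/

namespace Pool.Agent.Results.MP_5df2c5_lc.CommutativeRings

open FirstOrder FirstOrder.Language

/-- Vaught's conjecture, perfect-set form, for the theory `T` in the language `L` (the body of the
frozen statement): the models with universe `ℕ` fall into countably many isomorphism classes, or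
some continuous family of models, indexed by the Cantor space, consists of pairwise
non-isomorphic models. -/
def Dichotomy (L : FirstOrder.Language.{0, 0}) (T : L.Theory) : Prop :=
  (∃ g : ℕ → L.Structure ℕ, ∀ S : L.Structure ℕ,
      @FirstOrder.Language.Theory.Model L ℕ S T →
        ∃ n : ℕ, Nonempty (@FirstOrder.Language.Equiv L ℕ ℕ S (g n))) ∨
  (∃ f : (ℕ → Bool) → L.Structure ℕ,
      (∀ x : ℕ → Bool, @FirstOrder.Language.Theory.Model L ℕ (f x) T) ∧
      (∀ x y : ℕ → Bool,
          Nonempty (@FirstOrder.Language.Equiv L ℕ ℕ (f x) (f y)) → x = y) ∧
      (∀ (n : ℕ) (R : L.Relations n) (a : Fin n → ℕ),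
          IsClopen {x : ℕ → Bool | @FirstOrder.Language.Structure.RelMap L ℕ (f x) n R a}) ∧
      (∀ (n : ℕ) (F : L.Functions n) (a : Fin n → ℕ) (b : ℕ),
          IsOpen {x : ℕ → Bool | @FirstOrder.Language.Structure.funMap L ℕ (f x) n F a = b}))

/-- Vaught's conjecture for all first-order theories in all countable languages (the frozen
statement). -/
def FullConjecture : Prop :=
  ∀ L : FirstOrder.Language.{0, 0}, Countable L.Symbols → ∀ T : L.Theory, Dichotomy L T

/-- Commutative local rings of characteristic `3` with residue field of three elements and maximal
ideal of cube zero. -/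
def IsShort (R : Type) [CommRing R] : Prop :=
  ∃ _ : IsLocalRing R, CharP R 3 ∧ Nat.card (IsLocalRing.ResidueField R) = 3 ∧
    IsLocalRing.maximalIdeal R ^ 3 = ⊥

/-- The structure `S` on `ℕ` in the language of rings is such a ring. -/
def IsShortRing (S : Language.ring.Structure ℕ) : Prop :=
  ∃ g : CommRing ℕ,
    (∀ a b : ℕ, g.add a b = @Structure.funMap Language.ring ℕ S 2 ringFunc.add ![a, b]) ∧
    (∀ a b : ℕ, g.mul a b = @Structure.funMap Language.ring ℕ S 2 ringFunc.mul ![a, b]) ∧
    (∀ a : ℕ, g.neg a = @Structure.funMap Language.ring ℕ S 1 ringFunc.neg ![a]) ∧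
    g.zero = @Structure.funMap Language.ring ℕ S 0 ringFunc.zero ![] ∧
    g.one = @Structure.funMap Language.ring ℕ S 0 ringFunc.one ![] ∧
    @IsShort ℕ g

/-- Vaught's conjecture for the complete first-order theories of such rings. -/
def RingConjecture : Prop :=
  ∀ T : Language.ring.Theory, T.IsComplete →
    (∀ S : Language.ring.Structure ℕ,
      @FirstOrder.Language.Theory.Model Language.ring ℕ S T → IsShortRing S) →
    Dichotomy Language.ring T

theorem isShort (R : Type) [CommRing R] [Pool.Agent.H4.VR.RC R] : IsShort R :=
  ⟨Pool.Agent.H4.VR.rc_local R, Pool.Agent.H4.VR.char_three R,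
    @Pool.Agent.H4.VR.residue_card R _ _ (Pool.Agent.H4.VR.rc_local R),
    @Pool.Agent.H4.VR.max_cube R _ _ (Pool.Agent.H4.VR.rc_local R)⟩

/-- Vaught's conjecture, perfect-set form, for all first-order theories is equivalent to its
restriction to the complete first-order theories of commutative local rings of characteristic `3`
with residue field of three elements and maximal ideal of cube zero. -/
theorem result : RingConjecture ↔ FullConjecture := by
  constructor
  · intro h L hL T
    refine Pool.Agent.H4.VR.main (fun T hT hS => h T hT fun S hM => ?_) L hL T
    have h1 := hS S hM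
    obtain ⟨g, hg⟩ := h1.exr
    have h2 : Pool.Agent.H4.VR.FR (@Pool.Agent.H4.VR.ro ℕ g) := by
      rw [hg]
      exact h1
    exact ⟨g, fun a b => congrFun (congrFun (congrArg Pool.Agent.H4.VR.RO.add hg) a) b,
      fun a b => congrFun (congrFun (congrArg Pool.Agent.H4.VR.RO.mul hg) a) b,
      fun a => congrFun (congrArg Pool.Agent.H4.VR.RO.neg hg) a,
      congrArg Pool.Agent.H4.VR.RO.zero hg, congrArg Pool.Agent.H4.VR.RO.one hg,
      @isShort ℕ g (@Pool.Agent.H4.VR.FR.rc ℕ g h2)⟩
  · intro h T _ _
    exact h Language.ring inferInstance T

end Pool.Agent.Results.MP_5df2c5_lc.CommutativeRings
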