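import Pool.Agent.H667.IP.Loc
import Pool.Graph.R_pool_sql_team_seeded_63374d34.N649.KA.FO
import Pool.Graph.R_seed8.TH425.FF.Cun

set_option autoImplicit false

/-!
# Vaught's conjecture modulo interchangeable points

Two points `y`, `z` of a structure are interchangeable if their transposition is an automorphism.

(1) Vaught's conjecture (perfect-set form, Borel classes, also with unary predicates) is preserved by
a new operation, the naming of interchangeable points: if it holds for the class `V`, then it holds for
the class of the structures all of whose expansions by unary predicates which separate interchangeable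
points are in `V`. So it holds for all the classes which are obtained from known ones by this
operation together with the operations of the library (infinite components, infinite prime quotients,
countable unions, equivariant codings with finitely many parameters).

(2) In particular the conjecture holds for all structures whose automorphism group, modulo
interchangeability, is complete (the limits of automorphisms meet all classes), and hence for every
first-order theory, in any countable language, all of whose models on `ℕ` have this property; for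
instance if in each model on `ℕ` the automorphism group modulo interchangeability contains no free
group of rank two, or every orbit meets only finitely many classes of interchangeable points; and, in
relational languages, if up to interchangeability only finitely many points occur together with a
given point in the tuples of a given relation. (Without interchangeability these are results of
Becker and of the library.)
-/

namespace Pool.Agent.Results.MP_5df2c5_lc.InterchangeablePoints

/-! ### Groups of permutations modulo interchangeability -/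

/-- `y` and `z` are interchangeable: their transposition is in `G`. -/
def Interchangeable (G : Set (Equiv.Perm ℕ)) (y z : ℕ) : Prop := Equiv.swap y z ∈ G

/-- Modulo interchangeability, `G` is complete: if the map `f` is a limit of members of `G` up to
interchangeability, then it meets all classes of interchangeable points. -/
def CompleteModulo (G : Set (Equiv.Perm ℕ)) : Prop :=
  ∀ f : ℕ → ℕ, (∀ n, ∃ σ ∈ G, ∀ i < n, Interchangeable G (σ i) (f i)) →
    ∀ y, ∃ z, Interchangeable G (f z) y

/-- Modulo interchangeability, `G` contains no free group of rank two: there is no homomorphism from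
a free group of rank two into `G` such that every `w ≠ 1` moves a point out of its class. -/
def NoFreeModulo (G : Set (Equiv.Perm ℕ)) : Prop :=
  ¬ ∃ φ : FreeGroup (Fin 2) →* Equiv.Perm ℕ, (∀ w, φ w ∈ G) ∧
    ∀ w, w ≠ 1 → ∃ y, ¬ Interchangeable G (φ w y) y

/-- Every orbit meets only finitely many classes of interchangeable points. -/
def FinitelyManyClasses (G : Set (Equiv.Perm ℕ)) : Prop :=
  ∀ y, ∃ F : Finset ℕ, ∀ σ ∈ G, ∃ t ∈ F, Interchangeable G (σ y) t

/-- Every map which is a pointwise limit of members of `G` is onto. -/
def LimitsOnto (G : Set (Equiv.Perm ℕ)) : Prop :=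
  ∀ f : ℕ → ℕ, (∀ n, ∃ σ ∈ G, ∀ i < n, σ i = f i) → Function.Surjective f

/-! ### Structures -/

/-- Relational structures on `ℕ` with relations of arities `a 0, a 1, ...`. -/
abbrev Str (a : ℕ → ℕ) : Type := (i : ℕ) → (Fin (a i) → ℕ) → Bool

/-- Structures together with unary predicates. -/
abbrev UStr (a : ℕ → ℕ) : Type := Str a × (ℕ → ℕ → Bool)

/-- Isomorphism of structures. -/
def Iso {a : ℕ → ℕ} (x y : Str a) : Prop :=
  ∃ σ : Equiv.Perm ℕ, ∀ (i : ℕ) (v : Fin (a i) → ℕ), y i (⇑σ ∘ v) = x i v

/-- Isomorphism of structures with unary predicates. -/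
def UIso {a : ℕ → ℕ} (x y : UStr a) : Prop :=
  ∃ σ : Equiv.Perm ℕ, (∀ (i : ℕ) (v : Fin (a i) → ℕ), y.1 i (⇑σ ∘ v) = x.1 i v) ∧
    ∀ i u, y.2 i (σ u) = x.2 i u

/-- The class `V` satisfies Vaught's conjecture, in perfect-set form: every isomorphism-invariant
Borel subclass `B` of `V` has countably many isomorphism types, or there is a continuous family of
pairwise non-isomorphic members of `B` indexed by the Cantor space. -/
def Vaught {a : ℕ → ℕ} (V : Str a → Prop) : Prop :=
  ∀ B : Set (Str a), MeasurableSet B → (∀ x y, Iso x y → (x ∈ B ↔ y ∈ B)) → (∀ x ∈ B, V x) →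
    (∃ f : ℕ → Str a, ∀ x ∈ B, ∃ n, Iso (f n) x) ∨
    (∃ g : (ℕ → Bool) → Str a, Continuous g ∧ (∀ c, g c ∈ B) ∧ ∀ c d, Iso (g c) (g d) → c = d)

/-- The same for the isomorphism-invariant Borel classes of expansions of members of `V` by
countably many unary predicates. -/
def UVaught {a : ℕ → ℕ} (V : Str a → Prop) : Prop :=
  ∀ B : Set (UStr a), MeasurableSet B → (∀ x y, UIso x y → (x ∈ B ↔ y ∈ B)) →
    (∀ x ∈ B, V x.1) →
    (∃ f : ℕ → UStr a, ∀ x ∈ B, ∃ n, UIso (f n) x) ∨
    (∃ g : (ℕ → Bool) → UStr a, Continuous g ∧ (∀ c, g c ∈ B) ∧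
      ∀ c d, UIso (g c) (g d) → c = d)

/-- The automorphisms of `x`. -/
def Aut {a : ℕ → ℕ} (x : Str a) : Set (Equiv.Perm ℕ) :=
  {σ | ∀ (i : ℕ) (v : Fin (a i) → ℕ), x i (⇑σ ∘ v) = x i v}

/-! ### Operations -/

/-- The arities `a`, interlaced with unary predicates. -/
def withUnary (a : ℕ → ℕ) (n : ℕ) : ℕ := if n % 2 = 0 then a (n / 2) else 1

theorem withUnary_even (a : ℕ → ℕ) {n : ℕ} (h : n % 2 = 0) : a (n / 2) = withUnary a n := by
  unfold withUnary
  rw [if_pos h]

theorem withUnary_odd (a : ℕ → ℕ) {n : ℕ} (h : ¬ n % 2 = 0) : 0 < withUnary a n := by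
  unfold withUnary
  rw [if_neg h]
  exact Nat.one_pos

/-- The expansion of `x` by the unary predicates `p 0, p 1, ...`: the relation number `2 i` is the
relation number `i` of `x`, the relation number `2 k + 1` is the predicate `p k`. -/
def expand {a : ℕ → ℕ} (x : Str a) (p : ℕ → ℕ → Bool) : Str (withUnary a) := fun n t =>
  if h : n % 2 = 0 then x (n / 2) (fun j => t (Fin.cast (withUnary_even a h) j))
  else p (n / 2) (t ⟨0, withUnary_odd a h⟩)

/-- NAMING INTERCHANGEABLE POINTS: all expansions of `x` by unary predicates which separate any two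
interchangeable points are in `V`. -/
def NamedIn {a : ℕ → ℕ} (V : Str (withUnary a) → Prop) (x : Str a) : Prop :=
  ∀ p : ℕ → ℕ → Bool, (∀ y z, Interchangeable (Aut x) y z → (∀ k, p k y = p k z) → y = z) →
    V (expand x p)

/-- Two points occur together in a tuple of a relation. -/
def Linked {a : ℕ → ℕ} (x : Str a) (u v : ℕ) : Prop :=
  ∃ (i : ℕ) (t : Fin (a i) → ℕ), x i t = true ∧ (∃ j, t j = u) ∧ ∃ j, t j = v

/-- All infinite connected components of `x` are in `V` (`e` is any enumeration of the component
of `u`). -/
def ComponentsIn {a : ℕ → ℕ} (V : Str a → Prop) (x : Str a) : Prop :=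
  ∀ (u : ℕ) (e : ℕ → ℕ), Function.Injective e →
    (∀ z, Relation.ReflTransGen (Linked x) u z ↔ ∃ n, e n = z) → V fun i v => x i (e ∘ v)

/-- `X` is a module of `x`: the value of a relation at a tuple with an entry outside `X` does not
change if an entry in `X` is replaced by another point of `X`. -/
def IsModule {a : ℕ → ℕ} (x : Str a) (X : Set ℕ) : Prop :=
  ∀ (i : ℕ) (t : Fin (a i) → ℕ) (k l : Fin (a i)) (b : ℕ),
    t k ∈ X → b ∈ X → t l ∉ X → x i (Function.update t k b) = x i t

/-- All modules with at least two points are the whole structure. -/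
def IsPrime {a : ℕ → ℕ} (x : Str a) : Prop :=
  ∀ Y : Set ℕ, IsModule x Y → Y.Subsingleton ∨ Y = Set.univ

open Classical in
/-- The quotient structure with representatives `e 0, e 1, ...`; constant tuples are removed from
all relations. -/
noncomputable def quotient {a : ℕ → ℕ} (x : Str a) (e : ℕ → ℕ) : Str a :=
  fun i v => if ∃ j l, v j ≠ v l then x i (e ∘ v) else false

/-- Every infinite prime quotient of `x` is in `V`: if a module of `x` is the union of disjoint
modules `X 0, X 1, ...` and the quotient is prime, then the quotient is in `V`. -/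
def PrimeQuotientsIn {a : ℕ → ℕ} (V : Str a → Prop) (x : Str a) : Prop :=
  ∀ (X : ℕ → Set ℕ) (e : ℕ → ℕ), (∀ n, e n ∈ X n) → (∀ n, IsModule x (X n)) →
    (∀ m n, m ≠ n → Disjoint (X m) (X n)) → IsModule x (⋃ n, X n) →
    IsPrime (quotient x e) → V (quotient x e)

/-- Relabelling of a structure by a permutation. -/
def act {a : ℕ → ℕ} (σ : Equiv.Perm ℕ) (x : Str a) : Str a := fun i v => x i (⇑σ.symm ∘ v)

/-- For every tuple of parameters `p` there are Borel maps `c p` and `d p` in both directions, and
they commute with the permutations of `ℕ`. -/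
structure Coding {a b : ℕ → ℕ} (c : List ℕ → Str a → Str b) (d : List ℕ → Str b → Str a) :
    Prop where
  borel_c : ∀ p, Measurable (c p)
  borel_d : ∀ p, Measurable (d p)
  act_c : ∀ (σ : Equiv.Perm ℕ) (p : List ℕ) (x : Str a), c (p.map σ) (act σ x) = act σ (c p x)
  act_d : ∀ (σ : Equiv.Perm ℕ) (p : List ℕ) (z : Str b), d (p.map σ) (act σ z) = act σ (d p z)

/-- The structures `x` which, for some finite tuple of parameters `p`, are coded by a structure
`c p x` in `V`, from which `d p` recovers `x`. -/
def Coded {a b : ℕ → ℕ} (c : List ℕ → Str a → Str b) (d : List ℕ → Str b → Str a)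
    (V : Str b → Prop) (x : Str a) : Prop := ∃ p, V (c p x) ∧ d p (c p x) = x

/-- The classes of structures (in all countable relational languages) obtained from the structures
whose automorphism group modulo interchangeability contains no free group of rank two or is
complete, and from any coanalytic isomorphism-invariant classes which are known to satisfy Vaught's
conjecture with unary predicates, by naming interchangeable points, by conditions on the infinite
components or on the infinite prime quotients, by countable unions, and by equivariant Borel codings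
with finitely many parameters. -/
inductive Tame : (a : ℕ → ℕ) → (Str a → Prop) → Prop
  | modulo (a : ℕ → ℕ) : Tame a fun x => NoFreeModulo (Aut x) ∨ CompleteModulo (Aut x)
  | known (a : ℕ → ℕ) (V : Str a → Prop) : MeasureTheory.AnalyticSet {x | ¬ V x} →
      (∀ x y, Iso x y → V x → V y) → UVaught V → Tame a V
  | named (a : ℕ → ℕ) (V : Str (withUnary a) → Prop) : Tame (withUnary a) V → Tame a (NamedIn V)
  | components (a : ℕ → ℕ) (V : Str a → Prop) : (∀ i, 0 < a i) → Tame a V →
      Tame a (ComponentsIn V)
  | quotients (a : ℕ → ℕ) (V : Str a → Prop) : (∀ i, 0 < a i) → Tame a V →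
      Tame a (PrimeQuotientsIn V)
  | unions (a : ℕ → ℕ) (V : ℕ → Str a → Prop) : (∀ n, Tame a (V n)) →
      Tame a fun x => ∃ n, V n x
  | coding (a b : ℕ → ℕ) (c : List ℕ → Str a → Str b) (d : List ℕ → Str b → Str a)
      (V : Str b → Prop) : Coding c d → Tame b V → Tame a (Coded c d V)

/-! ### First-order theories -/

/-- The automorphisms of the first-order structure `S`. -/
def AutFO {L : FirstOrder.Language.{0, 0}} (S : L.Structure ℕ) : Set (Equiv.Perm ℕ) :=
  {σ | (∀ (n : ℕ) (F : L.Functions n) (v : Fin n → ℕ),
      σ (@FirstOrder.Language.Structure.funMap L ℕ S n F v) =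
        @FirstOrder.Language.Structure.funMap L ℕ S n F (⇑σ ∘ v)) ∧
    ∀ (n : ℕ) (R : L.Relations n) (v : Fin n → ℕ),
      @FirstOrder.Language.Structure.RelMap L ℕ S n R (⇑σ ∘ v) ↔
        @FirstOrder.Language.Structure.RelMap L ℕ S n R v}

/-- `S` is relational and, up to interchangeability, only finitely many points occur together with a
given point in the tuples of a given relation. -/
def LocallyFiniteModulo {L : FirstOrder.Language.{0, 0}} (S : L.Structure ℕ) : Prop :=
  (∀ n, IsEmpty (L.Functions n)) ∧ ∀ (n : ℕ) (R : L.Relations n) (y : ℕ), ∃ F : Finset ℕ,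
    ∀ v : Fin n → ℕ, @FirstOrder.Language.Structure.RelMap L ℕ S n R v → (∃ j, v j = y) →
      ∀ l, ∃ t ∈ F, Interchangeable (AutFO S) (v l) t

/-- Vaught's conjecture, perfect-set form, for the theory `T` in the language `L` (the body of the
frozen statement). -/
def Dichotomy (L : FirstOrder.Language.{0, 0}) (T : L.Theory) : Prop :=
  (∃ g : ℕ → L.Structure ℕ, ∀ S : L.Structure ℕ,
      @FirstOrder.Language.Theory.Model L ℕ S T →
        ∃ n : ℕ, Nonempty (@FirstOrder.Language.Equiv L ℕ ℕ S (g n))) ∨
  (∃ f : (ℕ → Bool) → L.Structure ℕ,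
      (∀ x : ℕ → Bool, @FirstOrder.Language.Theory.Model L ℕ (f x) T) ∧
      (∀ x y : ℕ → Bool,
          Nonempty (@FirstOrder.Language.Equiv L ℕ ℕ (f x) (f y)) → x = y) ∧
      (∀ (n : ℕ) (R : L.Relations n) (a : Fin n → ℕ),
          IsClopen {x : ℕ → Bool | @FirstOrder.Language.Structure.RelMap L ℕ (f x) n R a}) ∧
      (∀ (n : ℕ) (F : L.Functions n) (a : Fin n → ℕ) (b : ℕ),
          IsOpen {x : ℕ → Bool | @FirstOrder.Language.Structure.funMap L ℕ (f x) n F a = b}))

open Pool.Agent.H667.IP

theorem modulo_eq {a : ℕ → ℕ} : (fun x : Str a => NoFreeModulo (Aut x) ∨ CompleteModulo (Aut x)) =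
    fun x => NoFreeM (AS x) ∨ LimM (AS x) := rfl

theorem vcu_of_tame {a : ℕ → ℕ} {V : Str a → Prop} (hV : Tame a V) :
    Pool.Agent.H533R2.VS.VCu V ∧ Pool.Agent.H533R2.VS.Coan V ∧ Pool.Agent.H533R2.VS.Inv V := by
  induction hV with
  | modulo a => exact ⟨base_vcu a, base_coan a, base_inv a⟩
  | known a V h1 h2 h3 => exact ⟨h3, h1, h2⟩
  | named a V _ ih =>
    exact ⟨named_vcu (V := V) ih.1, named_coan (V := V) ih.2.1, named_inv (V := V) ih.2.2⟩
  | components a V ha _ ih =>
    exact ⟨Pool.Agent.Helper27.CF.comp_vcu ha ih.1,
      (Pool.Agent.Helper27.CF.comp_coan ih.2.1 ih.2.2).1,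
      (Pool.Agent.Helper27.CF.comp_coan ih.2.1 ih.2.2).2⟩
  | quotients a V ha _ ih =>
    exact ⟨Pool.Agent.W875.TS.ts_mod a ha V ih.1, Pool.Agent.W875.TS.ts_cmod a V ih.2.1,
      Pool.Agent.W875.TS.ts_imod a V⟩
  | unions a V _ ih =>
    exact ⟨Pool.Agent.TH425.FF.cun_vcu V (fun n => (ih n).1) (fun n => (ih n).2.1)
        (fun n => (ih n).2.2),
      Pool.Agent.TH425.FF.cun_coan V fun n => (ih n).2.1,
      Pool.Agent.TH425.FF.cun_inv V fun n => (ih n).2.2⟩
  | coding a b c d V hcd _ ih =>
    have h : Pool.Agent.TH425.FF.PCanon c d := ⟨hcd.borel_c, hcd.borel_d, hcd.act_c, hcd.act_d⟩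
    exact ⟨Pool.Agent.TH425.FF.pexp_vcu h ih.1 ih.2.1 ih.2.2,
      Pool.Agent.TH425.FF.pexp_coan h ih.2.1, Pool.Agent.TH425.FF.pexp_inv h ih.2.2⟩

open Pool.Agent.N649.KA.FO in
theorem aut_enc {L : FirstOrder.Language.{0, 0}} (e : ℕ → Option L.Symbols)
    (he : Function.Surjective e) (S : L.Structure ℕ) : AS (enc e S) = AutFO S := by
  ext σ
  constructor
  · intro h
    refine ⟨fun n F v => ?_, fun n R v => ?_⟩
    · have := dec_isoF e he h (cd_enc e he S) n F v
      rwa [dec_enc] at this
    · have := dec_iso e he h n R v
      rwa [dec_enc] at this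
  · rintro ⟨h1, h2⟩ i v
    exact enc_iso e h1 h2 i v

open Pool.Agent.N649.KA.FO in
theorem lfm_enc {L : FirstOrder.Language.{0, 0}} (e : ℕ → Option L.Symbols)
    (he : Function.Surjective e) {S : L.Structure ℕ} (hS : LocallyFiniteModulo S) :
    LFM (enc e S) := by
  classical
  obtain ⟨hF, hR⟩ := hS
  have key : ∀ (o : Option L.Symbols) (y : ℕ), ∃ F : Finset ℕ, ∀ t : Fin (ar o) → ℕ,
      evr S o t = true → (∃ j, t j = y) → ∀ l, ∃ s ∈ F, Interchangeable (AutFO S) (t l) s := by
    intro o y
    match o with
    | none =>
      refine ⟨∅, fun t ht => ?_⟩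
      exact absurd ht (by simp [evr])
    | some (Sum.inl f) => exact (hF f.1).elim f.2
    | some (Sum.inr r) =>
      obtain ⟨F, h⟩ := hR r.1 r.2 y
      refine ⟨F, fun t ht => h t ?_⟩
      exact of_decide_eq_true ht
  intro i y
  obtain ⟨F, h⟩ := key (e i) y
  refine ⟨F, fun t ht hj l => ?_⟩
  obtain ⟨s, hs, h1⟩ := h t ht hj l
  refine ⟨s, hs, ?_⟩
  show Equiv.swap (t l) s ∈ AS (enc e S)
  rw [aut_enc e he S]
  exact h1

/-- **Theorem.** (0) Groups of automorphisms which are complete (in the sense that the limits of
automorphisms are onto), or whose orbits meet only finitely many classes of interchangeable points,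
or which contain no free group of rank two modulo interchangeability, are complete modulo
interchangeability. (1) Vaught's conjecture (perfect-set form, Borel classes, with or without unary
predicates) holds for all classes in `Tame`; in particular it is preserved by the naming of
interchangeable points. (2) It holds for all first-order theories, in any countable language, such
that for every model on `ℕ` the automorphism group, modulo interchangeability, contains no free group
of rank two or is complete or has orbits which are finite, or the model is relational and locally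
finite modulo interchangeability. -/
theorem result :
    (∀ (a : ℕ → ℕ) (x : Str a),
      LimitsOnto (Aut x) ∨ FinitelyManyClasses (Aut x) ∨ NoFreeModulo (Aut x) →
      CompleteModulo (Aut x)) ∧
    (∀ (a : ℕ → ℕ) (V : Str a → Prop), Tame a V → UVaught V ∧ Vaught V) ∧
    (∀ L : FirstOrder.Language.{0, 0}, Countable L.Symbols → ∀ T : L.Theory,
      (∀ S : L.Structure ℕ, @FirstOrder.Language.Theory.Model L ℕ S T →
        NoFreeModulo (AutFO S) ∨ CompleteModulo (AutFO S) ∨ FinitelyManyClasses (AutFO S) ∨
          LocallyFiniteModulo S) →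
      Dichotomy L T) := by
  refine ⟨?_, fun a V hV => ⟨(vcu_of_tame hV).1,
    Pool.Agent.H533R2.VS.vs_plain a V (vcu_of_tame hV).1⟩, ?_⟩
  · rintro a x (h | h | h)
    · have h1 : Pool.Agent.Helper27.CF.Cli x := by
        intro f hf
        refine h f fun n => ?_
        obtain ⟨σ, h2, h3⟩ := hf n
        exact ⟨σ, h2, h3⟩
      exact mod_of_named (named_of_cli h1)
    · exact lim_of_fin h
    · exact mod_of_named (named_of_noFree h)
  · intro L hL T hT
    have hL' : Countable (Option L.Symbols) := inferInstance
    obtain ⟨e, he⟩ := exists_surjective_nat (Option L.Symbols)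
    refine Pool.Agent.N649.KA.FO.dichotomy_gen hL T e he
      (fun x => ∃ n, WW n x) (vc_WW _) fun S hS => ?_
    have h0 : NoFreeM (AS (Pool.Agent.N649.KA.FO.enc e S)) ∨
        LimM (AS (Pool.Agent.N649.KA.FO.enc e S)) →
        ∃ n, WW n (Pool.Agent.N649.KA.FO.enc e S) := fun h => ⟨0, Or.inl ⟨rfl, h⟩⟩
    rcases hT S hS with h | h | h | h
    · refine h0 (Or.inl ?_)
      rw [aut_enc e he S]
      exact h
    · refine h0 (Or.inr ?_)
      rw [aut_enc e he S]
      exact h
    · refine h0 (Or.inr (lim_of_fin ?_))
      rw [aut_enc e he S]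
      exact h
    · exact ⟨1, Or.inr ⟨one_ne_zero, lw_of_lfm (lfm_enc e he h)⟩⟩

end Pool.Agent.Results.MP_5df2c5_lc.InterchangeablePoints
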