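import Pool.Agent.H667.UF.Tame

set_option autoImplicit false

/-!
The perfect-set form of the Vaught conjecture for the uniform one-dimensional fragment with equality
(Hella and Kuusisto), the extension of two-variable logic to relation symbols of all arities:
for first-order theories, for sentences of `L_{ω₁ω}`, and for analytic classes of structures closed
under equivalence in this fragment.
-/

namespace Pool.Agent.Results.MP_5df2c5_lc.UniformOneDimensional

open FirstOrder Set MeasureTheory

/-- The uniform one-dimensional fragment with equality of `L_{ω₁ω}`. The members of `Uniform L n V`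
are the matrices with variables `x₀, …, xₙ₋₁`: countable Boolean combinations of atoms whose
variables are exactly the `xᵢ` with `i ∈ V` (in any order, with repetitions), of equalities between
any two variables, and of formulas of the fragment with one free variable `xⱼ`. The members of
`Uniform L 1 univ` are the formulas with one free variable `x₀`; the quantifier
`∃ x₁ … xₙ` is applied to a matrix and leaves only `x₀` free. (First-order formulas are the case in
which the conjunctions are finite.) -/
inductive Uniform (L : FirstOrder.Language.{0, 0}) : (n : ℕ) → Finset (Fin n) → Type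
  | rel {n : ℕ} {V : Finset (Fin n)} {k : ℕ} (R : L.Relations k) (s : Fin k → Fin n)
      (hs : Finset.univ.image s = V) : Uniform L n V
  | equal {n : ℕ} {V : Finset (Fin n)} (i j : Fin n) : Uniform L n V
  | point {n : ℕ} {V : Finset (Fin n)} (j : Fin n) (φ : Uniform L 1 Finset.univ) : Uniform L n V
  | not {n : ℕ} {V : Finset (Fin n)} (φ : Uniform L n V) : Uniform L n V
  | and {n : ℕ} {V : Finset (Fin n)} (φ : ℕ → Uniform L n V) : Uniform L n V
  | ex {n : ℕ} {V : Finset (Fin (n + 1))} (φ : Uniform L (n + 1) V) : Uniform L 1 Finset.univ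

/-- The formula holds in the structure for the values `v 0, …, v (n - 1)` of the variables. -/
def Holds {L : FirstOrder.Language.{0, 0}} (S : L.Structure ℕ) :
    ∀ {n : ℕ} {V : Finset (Fin n)}, Uniform L n V → (Fin n → ℕ) → Prop
  | _, _, .rel R s _, v =>
      @FirstOrder.Language.Structure.RelMap L ℕ S _ R (fun j => v (s j))
  | _, _, .equal i j, v => v i = v j
  | _, _, .point j φ, v => Holds S φ (fun _ => v j)
  | _, _, .not φ, v => ¬ Holds S φ v
  | _, _, .and φ, v => ∀ m, Holds S (φ m) v
  | _, _, .ex (n := n) φ, v => ∃ b : Fin (n + 1) → ℕ, b 0 = v 0 ∧ Holds S φ b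

/-- The structure satisfies the sentence `∃ x₀, φ`. -/
def Models {L : FirstOrder.Language.{0, 0}} (S : L.Structure ℕ)
    (φ : Uniform L 1 Finset.univ) : Prop :=
  ∃ b : ℕ, Holds S φ (fun _ => b)

open Classical in
/-- The code of a relational structure on `ℕ`, a point of a product of copies of `Bool`. -/
noncomputable def code {L : FirstOrder.Language.{0, 0}} (S : L.Structure ℕ) :
    (Σ n, L.Relations n × (Fin n → ℕ)) → Bool :=
  fun p => decide (@FirstOrder.Language.Structure.RelMap L ℕ S p.1 p.2.1 p.2.2)

/-- The class of structures has countably many isomorphism types, or there is a continuous family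
of pairwise non-isomorphic members, indexed by the Cantor space. -/
def CountableOrPerfect {L : FirstOrder.Language.{0, 0}} (C : Set (L.Structure ℕ)) : Prop :=
  (∃ g : ℕ → L.Structure ℕ, ∀ S ∈ C,
      ∃ n : ℕ, Nonempty (@FirstOrder.Language.Equiv L ℕ ℕ S (g n))) ∨
  (∃ f : (ℕ → Bool) → L.Structure ℕ, (∀ x : ℕ → Bool, f x ∈ C) ∧
    (∀ x y : ℕ → Bool, Nonempty (@FirstOrder.Language.Equiv L ℕ ℕ (f x) (f y)) → x = y) ∧
    (∀ (n : ℕ) (Q : L.Relations n) (a : Fin n → ℕ),
      IsClopen {x : ℕ → Bool | @FirstOrder.Language.Structure.RelMap L ℕ (f x) n Q a}))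

open Pool.Agent.H834V (rel countable_relations countable_sentences adapt)
open Pool.Agent.H667.UF (Fo Sat ty main_closed)
open Pool.Agent.H565R2.FO2 (Interp Code toI ofI toI_ofI Iso meas_toI)

variable {L : FirstOrder.Language.{0, 0}}

/-- From the formulas of this file to those of the proof. -/
def tr : ∀ {n : ℕ} {V : Finset (Fin n)}, Uniform L n V → Fo L n V
  | _, _, .rel R s hs => .rel R s hs
  | _, _, .equal i j => .eq i j
  | _, _, .point j φ => .one j (tr φ)
  | _, _, .not φ => .neg (tr φ)
  | _, _, .and φ => .inf fun m => tr (φ m)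
  | _, _, .ex φ => .ex (tr φ)

theorem sat_tr (S : L.Structure ℕ) {n : ℕ} {V : Finset (Fin n)} (φ : Uniform L n V) :
    ∀ v : Fin n → ℕ, Sat (rel S) (tr φ) v ↔ Holds S φ v := by
  induction φ with
  | rel R s hs => exact fun v => Iff.rfl
  | equal i j => exact fun v => Iff.rfl
  | point j φ ih => exact fun v => ih _
  | not φ ih => exact fun v => not_congr (ih v)
  | and φ ih => exact fun v => forall_congr' fun m => ih m v
  | ex φ ih => exact fun v => exists_congr fun b => and_congr Iff.rfl (ih b)

theorem toI_code (S : L.Structure ℕ) : toI (Pool.Agent.H834V.code S) = rel S := toI_ofI _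

theorem code_eq (S : L.Structure ℕ) : Pool.Agent.H834V.code S = code S := rfl

theorem measurable_sat [∀ n, Countable (L.Relations n)] {n : ℕ} {V : Finset (Fin n)}
    (φ : Fo L n V) : ∀ v : Fin n → ℕ, Measurable fun c : Code L => Sat (toI c) φ v := by
  induction φ with
  | rel R s hs => exact fun v => meas_toI R _
  | eq i j => exact fun v => measurable_const
  | one j φ ih => exact fun v => ih _
  | neg φ ih => exact fun v => (ih v).not
  | inf φ ih => exact fun v => Measurable.forall fun m => ih m v
  | ex φ ih =>
    exact fun v => Measurable.exists fun b => measurable_const.and (ih b)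

theorem dichotomy (hL : Countable L.Symbols) (hR : L.IsRelational) (C : Set (L.Structure ℕ))
    (hC : AnalyticSet (code '' C))
    (hcl : ∀ S ∈ C, ∀ S' : L.Structure ℕ, (∀ φ, Models S φ ↔ Models S' φ) → S' ∈ C) :
    CountableOrPerfect C := by
  have hRc : ∀ n, Countable (L.Relations n) := countable_relations hL
  have hinj : ∀ S S' : L.Structure ℕ, code S = code S' → ∀ φ, Models S φ ↔ Models S' φ := by
    intro S S' h φ
    have h1 : rel S = rel S' := by
      rw [← toI_code, ← toI_code, code_eq, code_eq, h]
    unfold Models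
    refine exists_congr fun b => ?_
    rw [← sat_tr, ← sat_tr, h1]
  have hmem : ∀ S : L.Structure ℕ, code S ∈ code '' C ↔ S ∈ C := by
    intro S
    constructor
    · rintro ⟨S', hS', h⟩
      exact hcl S' hS' S (hinj S' S h)
    · exact fun h => ⟨S, h, rfl⟩
  have hcl' : ∀ c ∈ code '' C, ∀ c' : Code L, (∀ b, ty (toI c') b = ty (toI c) b) →
      c' ∈ code '' C := by
    rintro _ ⟨S, hS, rfl⟩ c' h
    let S' : L.Structure ℕ := { funMap := fun {n} f => (hR n).elim f
                                RelMap := fun {n} R t => c' ⟨n, R, t⟩ = true }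
    have h1 : rel S' = toI c' := rfl
    have h2 : code S' = c' := by
      funext p
      rw [Bool.eq_iff_iff]
      simp only [code, decide_eq_true_eq]
      exact Iff.rfl
    refine ⟨S', hcl S hS S' fun φ => ?_, h2⟩
    unfold Models
    refine exists_congr fun b => ?_
    rw [← sat_tr, ← sat_tr, h1, ← toI_code, code_eq]
    exact Iff.of_eq (congrArg (fun s => tr φ ∈ s) (h b).symm)
  rcases adapt hR (code '' C) (main_closed (code '' C) hC hcl') with ⟨g, hg⟩ | ⟨f, h1, h2, h3⟩
  · left
    exact ⟨g, fun S hS => hg S ((hmem S).2 hS)⟩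
  · right
    exact ⟨f, fun x => (hmem _).1 (h1 x), h2, h3⟩

/-- **Theorem.** Let `L` be a countable relational language. (1) The dichotomy holds for all analytic
classes of `L`-structures on `ℕ` which are closed under equivalence for the sentences of the uniform
one-dimensional fragment with equality of `L_{ω₁ω}`. (2) The dichotomy holds for the models of every
first-order theory `T` whose axioms are equivalent to sentences of this fragment, and more generally
for the models of `T` and of a countable set `Ψ` of sentences of the fragment. -/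
theorem result : ∀ (L : FirstOrder.Language.{0, 0}), Countable L.Symbols → L.IsRelational →
    (∀ C : Set (L.Structure ℕ), AnalyticSet (code '' C) →
      (∀ S ∈ C, ∀ S' : L.Structure ℕ, (∀ φ, Models S φ ↔ Models S' φ) → S' ∈ C) →
      CountableOrPerfect C) ∧
    (∀ (T : L.Theory) (Ψ : Set (Uniform L 1 Finset.univ)), Ψ.Countable →
      (∀ σ ∈ T, ∃ φ : Uniform L 1 Finset.univ, ∀ S : L.Structure ℕ,
        (@FirstOrder.Language.Sentence.Realize L ℕ S σ ↔ Models S φ)) →
      CountableOrPerfect {S : L.Structure ℕ |
        @FirstOrder.Language.Theory.Model L ℕ S T ∧ ∀ φ ∈ Ψ, Models S φ}) := by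
  intro L hL hR
  refine ⟨fun C hC hcl => dichotomy hL hR C hC hcl, fun T Ψ hΨ hT => ?_⟩
  have hRc : ∀ n, Countable (L.Relations n) := countable_relations hL
  have hsent : Countable L.Sentence := countable_sentences hL
  choose F hF using hT
  let A : Set (Uniform L 1 Finset.univ) := {φ | φ ∈ Ψ ∨ ∃ (σ : L.Sentence) (hσ : σ ∈ T), F σ hσ = φ}
  have hA : A.Countable := by
    have h1 : {φ | ∃ (σ : L.Sentence) (hσ : σ ∈ T), F σ hσ = φ}.Countable := by
      have : {φ | ∃ (σ : L.Sentence) (hσ : σ ∈ T), F σ hσ = φ} =
          Set.range fun σ : T => F σ.1 σ.2 := by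
        ext φ
        constructor
        · rintro ⟨σ, hσ, rfl⟩
          exact ⟨⟨σ, hσ⟩, rfl⟩
        · rintro ⟨σ, rfl⟩
          exact ⟨σ.1, σ.2, rfl⟩
      rw [this]
      exact Set.countable_range _
    exact hΨ.union h1
  have hmod : ∀ S : L.Structure ℕ, (@FirstOrder.Language.Theory.Model L ℕ S T ∧
      ∀ φ ∈ Ψ, Models S φ) ↔ ∀ φ ∈ A, Models S φ := by
    intro S
    constructor
    · rintro ⟨h, h'⟩ φ (hφ | ⟨σ, hσ, rfl⟩)
      · exact h' φ hφ
      · exact (hF σ hσ S).1 (h.realize_of_mem σ hσ)
    · intro h
      exact ⟨⟨fun σ hσ => (hF σ hσ S).2 (h _ (Or.inr ⟨σ, hσ, rfl⟩))⟩,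
        fun φ hφ => h φ (Or.inl hφ)⟩
  refine dichotomy hL hR _ ?_ ?_
  · have himg : code '' {S : L.Structure ℕ | @FirstOrder.Language.Theory.Model L ℕ S T ∧
        ∀ φ ∈ Ψ, Models S φ} =
        ⋂ φ ∈ A, {c : Code L | ∃ b, Sat (toI c) (tr φ) fun _ => b} := by
      ext c
      rw [Set.mem_iInter₂]
      constructor
      · rintro ⟨S, hS, rfl⟩ φ hφ
        obtain ⟨b, hb⟩ := (hmod S).1 hS φ hφ
        refine ⟨b, ?_⟩
        have h1 : toI (code S) = rel S := toI_code S
        rw [h1, sat_tr]
        exact hb
      · intro h
        let S' : L.Structure ℕ := { funMap := fun {n} f => (hR n).elim f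
                                    RelMap := fun {n} R t => c ⟨n, R, t⟩ = true }
        have h2 : code S' = c := by
          funext p
          rw [Bool.eq_iff_iff]
          simp only [code, decide_eq_true_eq]
          exact Iff.rfl
        refine ⟨S', (hmod S').2 fun φ hφ => ?_, h2⟩
        obtain ⟨b, hb⟩ := h φ hφ
        exact ⟨b, (sat_tr S' _ _).1 hb⟩
    rw [himg]
    have hm : MeasurableSet (⋂ φ ∈ A, {c : Code L | ∃ b, Sat (toI c) (tr φ) fun _ => b}) := by
      refine MeasurableSet.biInter hA fun φ _ => ?_
      apply measurableSet_setOfPred.2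
      exact Measurable.exists fun b => measurable_sat _ _
    exact hm.analyticSet
  · intro S hS S' h
    exact (hmod S').2 fun φ hφ => (h _).1 ((hmod S).1 hS φ hφ)

end Pool.Agent.Results.MP_5df2c5_lc.UniformOneDimensional
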