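import Pool.Agent.H4.FV.Sgp
import Pool.Agent.H4.FV.Grp

set_option autoImplicit false

/-!
# Vaught's conjecture for first-order theories and the varieties of semigroups

For a variety `V` of semigroups consider Vaught's conjecture, perfect-set form, for all first-order
theories whose models on `ℕ` are members of `V`. A rectangular group is a regular semigroup in which
`e f e = e` for all idempotents `e`, `f`.

* If `V` does not consist of rectangular groups, then this is true if `V` satisfies `x y = x z` or
  `y x = z x`, and is equivalent to the full conjecture (all theories in all countable languages)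
  otherwise.
* If `V` consists of rectangular groups, it is equivalent to the same statement for the groups in
  `V`. This is true if these are abelian, and equivalent to the full conjecture if `V` contains
  a nonabelian nilpotent group.
* For every variety `V` of semigroups that contains a nonabelian nilpotent group Vaught's
  conjecture for the first-order theories of groups in `V` is equivalent to the full conjecture.
-/

namespace Pool.Agent.Results.MP_5df2c5_lc.VarietiesOfSemigroups

open FirstOrder FirstOrder.Language
open Pool.Agent.H4.VG (LM op)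
open Pool.Agent.N649.SG.Light (T Sa)

/-- Vaught's conjecture, perfect-set form, for the theory `T` in the language `L` (the body of the
frozen statement): the models with universe `ℕ` fall into countably many isomorphism classes, or
some continuous family of models, indexed by the Cantor space, consists of pairwise
non-isomorphic models. -/
def Dichotomy (L : FirstOrder.Language.{0, 0}) (T : L.Theory) : Prop :=
  (∃ g : ℕ → L.Structure ℕ, ∀ S : L.Structure ℕ,
      @FirstOrder.Language.Theory.Model L ℕ S T →
        ∃ n : ℕ, Nonempty (@FirstOrder.Language.Equiv L ℕ ℕ S (g n))) ∨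
  (∃ f : (ℕ → Bool) → L.Structure ℕ,
      (∀ x : ℕ → Bool, @FirstOrder.Language.Theory.Model L ℕ (f x) T) ∧
      (∀ x y : ℕ → Bool,
          Nonempty (@FirstOrder.Language.Equiv L ℕ ℕ (f x) (f y)) → x = y) ∧
      (∀ (n : ℕ) (R : L.Relations n) (a : Fin n → ℕ),
          IsClopen {x : ℕ → Bool | @FirstOrder.Language.Structure.RelMap L ℕ (f x) n R a}) ∧
      (∀ (n : ℕ) (F : L.Functions n) (a : Fin n → ℕ) (b : ℕ),
          IsOpen {x : ℕ → Bool | @FirstOrder.Language.Structure.funMap L ℕ (f x) n F a = b}))

/-- Vaught's conjecture for all first-order theories in all countable languages (the frozen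
statement `S14759`). -/
def FullConjecture : Prop :=
  ∀ L : FirstOrder.Language.{0, 0}, Countable L.Symbols → ∀ T : L.Theory, Dichotomy L T

/-- Vaught's conjecture for the first-order theories of the members of `K`: `T` ranges over the
theories in the language `LM` of one binary function symbol all of whose models on `ℕ` are (have as
their operation) members of the class `K` of binary operations on `ℕ`. -/
def VaughtFor (K : (ℕ → ℕ → ℕ) → Prop) : Prop :=
  ∀ T : LM.Theory, (∀ S : LM.Structure ℕ, @FirstOrder.Language.Theory.Model LM ℕ S T → K (op S)) →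
    Dichotomy LM T

variable {M : Type}

/-- `o` is in the variety of semigroups given by the identities `E`. -/
def InVariety (E : Set (T × T)) (o : M → M → M) : Prop :=
  (∀ x y z : M, o (o x y) z = o x (o y z)) ∧ Sa E o

/-- `o` is a group (or empty), if it is associative. -/
def IsGroup (o : M → M → M) : Prop := ∀ a b : M, (∃ x, o a x = b) ∧ ∃ x, o x a = b

/-- `o` is a group (or empty) in the variety. -/
def GroupIn (E : Set (T × T)) (o : M → M → M) : Prop := InVariety E o ∧ IsGroup o

/-- `o` is a rectangular group, if it is associative. -/
def IsRectGroup (o : M → M → M) : Prop :=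
  (∀ a : M, ∃ x, o (o a x) a = a) ∧ ∀ e f : M, o e e = e → o f f = f → o (o e f) e = e

/-- All members of the variety are rectangular groups. -/
def AllRectGroups (E : Set (T × T)) : Prop :=
  ∀ (M : Type) (o : M → M → M), InVariety E o → IsRectGroup o

/-- All groups in the variety are abelian. -/
def AbelianGroups (E : Set (T × T)) : Prop :=
  ∀ (M : Type) (o : M → M → M), InVariety E o → IsGroup o → ∀ x y : M, o x y = o y x

/-- The variety contains a nilpotent nonabelian group. -/
def NilpotentNonabelian (E : Set (T × T)) : Prop :=
  ∃ (G : Type) (_ : Group G), Sa E (fun x y : G => x * y) ∧ Group.IsNilpotent G ∧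
    ∃ a b : G, a * b ≠ b * a

/-- `x y = x z` holds in all members of the variety, or `y x = z x` does. -/
def Unary (E : Set (T × T)) : Prop :=
  (∀ (M : Type) (o : M → M → M), InVariety E o → ∀ x y z : M, o x y = o x z) ∨
    ∀ (M : Type) (o : M → M → M), InVariety E o → ∀ x y z : M, o y x = o z x

theorem result (E : Set (T × T)) :
    -- varieties which do not consist of rectangular groups
    (¬ AllRectGroups E → (VaughtFor (InVariety E) ↔ Unary E ∨ FullConjecture)) ∧
    -- varieties of rectangular groups
    (AllRectGroups E → (VaughtFor (InVariety E) ↔ VaughtFor (GroupIn E)) ∧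
      (AbelianGroups E → VaughtFor (InVariety E)) ∧
      (NilpotentNonabelian E → (VaughtFor (InVariety E) ↔ FullConjecture))) ∧
    -- groups
    (NilpotentNonabelian E → (VaughtFor (GroupIn E) ↔ FullConjecture)) := by
  have hN : NilpotentNonabelian E → (VaughtFor (GroupIn E) ↔ FullConjecture) := by
    intro h
    constructor
    · intro hV
      refine H4.FV.full_of (H4.FV.red_nil h) (K := fun o => N649.SV.Grp o ∧ Sa E o)
        fun T hT => hV T fun S hS => ?_
      have h1 := hT S hS
      exact ⟨⟨h1.1.1, h1.2⟩, h1.1.2⟩
    · exact fun hF T _ => hF LM inferInstance T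
  have hU : Unary E → VaughtFor (InVariety E) := by
    rintro (h | h)
    · exact H4.FV.good_unary (E := E) (Or.inl fun M o h1 h2 => h M o ⟨h1, h2⟩)
    · exact H4.FV.good_unary (E := E) (Or.inr fun M o h1 h2 => h M o ⟨h1, h2⟩)
  have hR : AllRectGroups E → (VaughtFor (InVariety E) ↔ VaughtFor (GroupIn E)) := by
    intro hr
    constructor
    · exact fun hV T hT => hV T fun S hS => (hT S hS).1
    · intro hV T hT
      refine H947.FV.leaf_rect E (fun T hT => hV T fun S hS => ?_) T fun S hS => ?_
      · have h1 := hT S hS
        exact ⟨⟨h1.1.1, h1.2⟩, h1.1.2⟩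
      · have h1 := hT S hS
        have h2 := hr ℕ _ h1
        exact ⟨⟨h1.1, h2⟩, h1.2⟩
  refine ⟨fun hr => ⟨fun hV => ?_, ?_⟩, fun hr => ⟨hR hr, fun ha => (hR hr).2 ?_, fun hn =>
    (hR hr).trans (hN hn)⟩, hN⟩
  · rcases H4.FV.red_variety E with h | h | h | h
    · exact Or.inr (H4.FV.full_of h hV)
    · exact Or.inl (Or.inl fun M o ho => h M o ho.1 ho.2)
    · exact Or.inl (Or.inr fun M o ho => h M o ho.1 ho.2)
    · exact absurd (fun M o ho => (h M o ho.1 ho.2).2) hr
  · rintro (h | h)
    · exact hU h
    · exact fun T _ => h LM inferInstance T
  · intro T hT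
    refine H4.FV.good_abelian (E := E) (fun M o h1 h2 => ⟨h1, hr M o ⟨h1, h2⟩⟩)
      (fun M o h1 h2 => ha M o ⟨h1.1, h2⟩ h1.2) T fun S hS => ?_
    have h1 := hT S hS
    exact ⟨⟨h1.1.1, h1.2⟩, h1.1.2⟩

end Pool.Agent.Results.MP_5df2c5_lc.VarietiesOfSemigroups
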